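import Pool.Agent.helper72.SF.SpecT

/-!
Project sf: T7, windows.
-/

set_option autoImplicit false

namespace SF

open Pool.Agent.helper72.Sq AM Matrix

theorem T7_win (f f' : List Bool → ℝ) (hf : ∀ R, {a | f a ≤ R}.Finite)
    (hf' : ∀ R, {a | f' a ≤ R}.Finite) (b K : ℝ) (hb : 0 < b) (hK : 0 ≤ K)
    (h : ∀ R : ℝ, 1 ≤ R →
      |(({a | f a ≤ R}.ncard : ℝ) + ({a | f' a ≤ R}.ncard : ℝ)) - b * R ^ 2| ≤ K * R) :
    LW f := by
  refine ⟨hf, fun C => ?_⟩
  rcases lt_or_ge C 0 with hC | hC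
  · refine ⟨0, fun R _ => ?_⟩
    have h1 : {a : List Bool | |f a - R| ≤ C} = ∅ := by
      ext a
      simp only [Set.mem_setOf_eq, Set.mem_empty_iff_false, iff_false, not_le]
      exact lt_of_lt_of_le hC (abs_nonneg _)
    rw [h1, Set.ncard_empty]
    simp
  · refine ⟨2 * b * (2 * C + 1) + 2 * K + b * (2 * C + 2) ^ 2 + K * (2 * C + 2),
      fun R hR => ?_⟩
    have hsub : {a : List Bool | |f a - R| ≤ C} ⊆
        {a | f a ≤ R + C} \ {a | f a ≤ R - C - 1} := by
      intro a ha
      simp only [Set.mem_setOf_eq] at ha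
      rw [abs_le] at ha
      refine ⟨?_, ?_⟩
      · show f a ≤ R + C
        linarith [ha.2]
      · show ¬ f a ≤ R - C - 1
        intro h2
        linarith [ha.1]
    have hA : {a | f a ≤ R - C - 1} ⊆ {a | f a ≤ R + C} := by
      intro a ha
      have h2 : f a ≤ R - C - 1 := ha
      show f a ≤ R + C
      linarith
    have hA' : {a | f' a ≤ R - C - 1} ⊆ {a | f' a ≤ R + C} := by
      intro a ha
      have h2 : f' a ≤ R - C - 1 := ha
      show f' a ≤ R + C
      linarith
    have h1 : ({a : List Bool | |f a - R| ≤ C}.ncard : ℝ) ≤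
        ({a | f a ≤ R + C}.ncard : ℝ) - ({a | f a ≤ R - C - 1}.ncard : ℝ) := by
      have h2 := Set.ncard_le_ncard hsub ((hf (R + C)).diff)
      have h3 := Set.ncard_diff_add_ncard_of_subset hA (hf (R + C))
      have h4 : ({a : List Bool | |f a - R| ≤ C}.ncard : ℝ) ≤
          (({a | f a ≤ R + C} \ {a | f a ≤ R - C - 1}).ncard : ℝ) := by exact_mod_cast h2
      have h5 : (({a | f a ≤ R + C} \ {a | f a ≤ R - C - 1}).ncard : ℝ) +
          ({a | f a ≤ R - C - 1}.ncard : ℝ) = ({a | f a ≤ R + C}.ncard : ℝ) := by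
        exact_mod_cast h3
      linarith
    have h1' : ({a | f' a ≤ R - C - 1}.ncard : ℝ) ≤ ({a | f' a ≤ R + C}.ncard : ℝ) := by
      exact_mod_cast Set.ncard_le_ncard hA' (hf' (R + C))
    have hu := (abs_le.1 (h (R + C) (by linarith))).2
    have hp1 : 0 ≤ 2 * b * (2 * C + 1) := by positivity
    have hp2 : 0 ≤ b * (2 * C + 2) ^ 2 := by positivity
    have hp3 : 0 ≤ K * (2 * C + 2) := by positivity
    rcases le_or_gt 1 (R - C - 1) with hc | hc
    · have hl := (abs_le.1 (h (R - C - 1) hc)).1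
      have h6 : ({a : List Bool | |f a - R| ≤ C}.ncard : ℝ) ≤
          b * (2 * C + 1) * (2 * R - 1) + K * (2 * R - 1) := by
        nlinarith
      have h7 : b * (2 * C + 1) * (2 * R - 1) + K * (2 * R - 1) ≤
          (2 * b * (2 * C + 1) + 2 * K) * R := by
        have : 0 ≤ b * (2 * C + 1) := by positivity
        nlinarith
      have h8 : 0 ≤ (b * (2 * C + 2) ^ 2 + K * (2 * C + 2)) * R := by positivity
      nlinarith
    · have h0 : (0 : ℝ) ≤ ({a | f' a ≤ R + C}.ncard : ℝ) := Nat.cast_nonneg _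
      have h0' : (0 : ℝ) ≤ ({a | f a ≤ R - C - 1}.ncard : ℝ) := Nat.cast_nonneg _
      have h6 : ({a : List Bool | |f a - R| ≤ C}.ncard : ℝ) ≤
          b * (R + C) ^ 2 + K * (R + C) := by linarith
      have h7 : b * (R + C) ^ 2 ≤ b * (2 * C + 2) ^ 2 := by
        apply mul_le_mul_of_nonneg_left _ hb.le
        apply pow_le_pow_left₀ (by linarith)
        linarith
      have h8 : K * (R + C) ≤ K * (2 * C + 2) := mul_le_mul_of_nonneg_left (by linarith) hK
      have h9 : b * (2 * C + 2) ^ 2 + K * (2 * C + 2) ≤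
          (b * (2 * C + 2) ^ 2 + K * (2 * C + 2)) * R := by
        have : 0 ≤ b * (2 * C + 2) ^ 2 + K * (2 * C + 2) := by positivity
        nlinarith
      have h10 : 0 ≤ (2 * b * (2 * C + 1) + 2 * K) * R := by positivity
      nlinarith

theorem T7_shift (f : List Bool → ℝ) (hf : LW f) (s : List Bool) : LW (fun w => f (w ++ s)) := by
  obtain ⟨h1, h2⟩ := hf
  have hinj : Function.Injective (fun w : List Bool => w ++ s) := List.append_left_injective s
  refine ⟨fun R => ?_, fun C => ?_⟩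
  · exact (h1 R).preimage (hinj.injOn)
  · obtain ⟨K, hK⟩ := h2 C
    refine ⟨K, fun R hR => le_trans ?_ (hK R hR)⟩
    have hfin : {a : List Bool | |f a - R| ≤ C}.Finite := by
      refine (h1 (R + C)).subset fun a ha => ?_
      simp only [Set.mem_setOf_eq] at ha ⊢
      rw [abs_le] at ha
      linarith [ha.2]
    have h3 : {a : List Bool | |f (a ++ s) - R| ≤ C}.ncard ≤
        {a : List Bool | |f a - R| ≤ C}.ncard :=
      Set.ncard_le_ncard_of_injOn (fun w => w ++ s) (fun a ha => ha) (hinj.injOn) hfin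
    exact_mod_cast h3

theorem T7 (hXZ : AM.XZ_stmt) (hTOT : AM.TOT_stmt) : T7_stmt := by
  intro P hP
  obtain ⟨f1, f2, b, K, hb, hK, h⟩ := hTOT P hP
  have k1 := fun R => hXZ P R (f1 R)
  have k2 := fun R => hXZ (Tw P) R (f2 R)
  have hN : ∀ R : ℝ, 1 ≤ R →
      |(({w : List Bool | len (desc w P).2.2 ≤ R}.ncard : ℝ) +
        ({w : List Bool | len (desc w (Tw P)).2.2 ≤ R}.ncard : ℝ)) - b * R ^ 2| ≤
        (K + 2) * R := by
    intro R hR
    have a1 := abs_le.1 (k1 R).2
    have a2 := abs_le.1 (k2 R).2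
    have a3 := abs_le.1 (h R hR)
    rw [abs_le]
    constructor
    · nlinarith [a1.1, a2.1, a3.1]
    · nlinarith [a1.2, a2.2, a3.2]
  have g1 : LW (fun w => len (desc w P).2.2) :=
    T7_win _ _ (fun R => (k1 R).1) (fun R => (k2 R).1) b (K + 2) hb (by linarith) hN
  have g2 : LW (fun w => len (desc w (Tw P)).2.2) :=
    T7_win _ _ (fun R => (k2 R).1) (fun R => (k1 R).1) b (K + 2) hb (by linarith)
      (fun R hR => by
        have := hN R hR
        rwa [add_comm (({w : List Bool | len (desc w P).2.2 ≤ R}.ncard : ℝ))] at this)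
  intro s
  exact ⟨T7_shift _ g1 s, T7_shift _ g2 s⟩

end SF
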